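import Pool.Agent.Q25.Arb3

set_option autoImplicit false

/-!
# Narrow progressions in ARBITRARY sets of primes which start Cunningham chains of the second kind of length `≥ k`

Whatever the set `A` of primes `n` for which all the `k` numbers `2 ^ i (n - 1) + 1`, `i < k`, are primes (for example the set of
all primes which start a chain of EXACT length `k`), all elements of `A` in `(X, X + Y]`, with at most
`ε Y / (log X) ^ k` exceptions (an arbitrarily small proportion of the expected number), are terms of `l`-term arithmetic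
progressions contained in `A ∩ (X, X + Y]` whose difference is at most a fixed power of `log X`; here `X ^ θ ≤ Y ≤ X` and
`θ > 0` is arbitrarily small. The same holds for sets of primes `n` for which the other terms have no prime factor up to
`n ^ (1 / r)`, of which there are at least `κ X / (log X) ^ k` in `(X, 2 X]`, even with at most `r` prime factors of each
term.
-/

namespace Pool.Agent.Results.MP_39b545_nt.NarrowProgressions

open Finset Filter Pool.Agent.Q25.Arb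

/-- the `i`-th term of the Cunningham chain of the second kind which starts with `n` -/
def chain (i n : ℕ) : ℕ := 2 ^ i * (n - 1) + 1

/-- `n` is a prime, and all prime factors of the terms `chain 0 n, ..., chain (k - 1) n` are larger than `n ^ (1 / r)` -/
def ChainRough (k r n : ℕ) : Prop :=
  n.Prime ∧ ∀ i < k, ∀ p : ℕ, p.Prime → p ∣ chain i n → (n : ℝ) ^ (1 / (r : ℝ)) < p

/-- the constant terms -/
def ct (i : ℕ) : ℤ := 1 - 2 ^ (i + 1)

lemma cast_eq (i n : ℕ) (hn : 1 ≤ n) : ((2 ^ (i + 1) : ℕ) : ℤ) * (n : ℤ) + ct i = ((chain (i + 1) n : ℕ) : ℤ) := by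
  unfold chain ct
  rw [Nat.cast_add, Nat.cast_mul, Nat.cast_sub hn]
  push_cast
  ring

lemma le_chain (i n : ℕ) (hn : 1 ≤ n) : n ≤ chain i n := by
  unfold chain
  have h2 : 1 ≤ 2 ^ i := Nat.one_le_two_pow
  have h3 : 1 * (n - 1) ≤ 2 ^ i * (n - 1) := Nat.mul_le_mul_right _ h2
  omega

lemma adm (p : ℕ) (hp : p.Prime) (k : ℕ) :
    ∃ m : ℕ, ¬ p ∣ m ∧ ∀ i : Fin k, ¬ (p : ℤ) ∣ ((2 ^ ((i : ℕ) + 1) : ℕ) : ℤ) * m + ct i := by
  have h2 := hp.two_le
  refine ⟨1, fun hd => ?_, fun i hd => ?_⟩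
  · have := Nat.le_of_dvd (by omega) hd
    omega
  · have e : ((2 ^ ((i : ℕ) + 1) : ℕ) : ℤ) * ((1 : ℕ) : ℤ) + ct i = 1 := by
      unfold ct
      push_cast
      ring
    rw [e] at hd
    exact hp.one_lt.ne' (Nat.dvd_one.1 (by exact_mod_cast hd))

lemma copr (i : ℕ) : IsCoprime ((2 ^ (i + 1) : ℕ) : ℤ) (ct i) := by
  refine ⟨1, 1, ?_⟩
  unfold ct
  push_cast
  ring

lemma ct_ne (i : ℕ) (h : 2 ^ (i + 1) = 1 ∧ ct i = 0) : False := by
  have h1 : 2 ≤ 2 ^ (i + 1) := by
    calc 2 = 2 ^ 1 := rfl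
      _ ≤ 2 ^ (i + 1) := Nat.pow_le_pow_right (by norm_num) (by omega)
  omega

/-- primes which start a chain of `k` primes -/
lemma prime_rough (k r : ℕ) (hr : 2 ≤ r) (n : ℕ) (h : ∀ i < k, (chain i n).Prime) (h0 : n.Prime) :
    ChainRough k r n := by
  refine ⟨h0, fun i hi p hp hd => ?_⟩
  have h3 : p = chain i n := (Nat.prime_dvd_prime_iff_eq hp (h i hi)).1 hd
  apply Pool.Agent.TH977.PW.rpow_lt_of_le r n p hr h0.two_le
  rw [h3]
  exact le_chain i n h0.one_lt.le

/-- **Narrow progressions in arbitrary sets of starts of chains.** -/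
theorem result (k : ℕ) (hk : 1 ≤ k) (θ : ℝ) (hθ : 0 < θ) (hθ1 : θ ≤ 1) :
    (∀ l : ℕ, 2 ≤ l → ∀ ε : ℝ, 0 < ε → ∃ B : ℕ, ∀ᶠ X : ℕ in atTop, ∀ Y : ℕ, (X : ℝ) ^ θ ≤ Y → Y ≤ X →
      ∀ A : Set ℕ, (∀ n ∈ A, n.Prime ∧ ∀ i < k, (chain i n).Prime) →
        NearlyAll A l (Real.log X ^ B) X (X + Y) (ε * (Y / Real.log X ^ k))) ∧
    ∃ r₀ : ℕ, ∀ r : ℕ, r₀ ≤ r →
      (∀ l : ℕ, 2 ≤ l → ∀ ε : ℝ, 0 < ε → ∃ B : ℕ, ∀ᶠ X : ℕ in atTop, ∀ Y : ℕ, (X : ℝ) ^ θ ≤ Y → Y ≤ X →
        ∀ A : Set ℕ, (∀ n ∈ A, ChainRough k r n) →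
          NearlyAll A l (Real.log X ^ B) X (X + Y) (ε * (Y / Real.log X ^ k))) ∧
      ∃ κ : ℝ, 0 < κ ∧ ∀ᶠ X : ℕ in atTop, κ * (X / Real.log X ^ k) ≤
        (N {n | ChainRough k r n ∧ ∀ i < k, (chain i n).primeFactorsList.length ≤ r} X (2 * X) : ℝ) := by
  obtain ⟨r0, hr0, h0⟩ := Pool.Agent.Y677.RSZ.narrow_lin_prime (fun i : Fin (k - 1) => 2 ^ ((i : ℕ) + 1)) (fun i => ct i)
    (fun i => Nat.two_pow_pos _) (fun i => copr i) (fun i j h1 _ => Fin.ext (by
      have := Nat.pow_right_injective (le_refl 2) h1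
      omega))
    (fun i h1 => ct_ne i h1) (fun p hp => adm p hp (k - 1)) (fun r => {n | ChainRough k r n})
    (fun r => {n | ChainRough k r n ∧ ∀ i < k, (chain i n).primeFactorsList.length ≤ r}) k
    (by rw [Fintype.card_fin]; omega)
    (fun r m hr hm => ⟨fun p hp hd => Pool.Agent.TH977.PW.rpow_lt_dvd r m p hr hm.1 hp hd, fun i p hp hd => by
      rw [cast_eq _ _ hm.1.one_lt.le, Int.natCast_dvd_natCast] at hd
      exact hm.2 ((i : ℕ) + 1) (by omega) p hp hd⟩)
    (fun r m hr hm h1 h2 => by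
      have hm1 := hm.one_lt.le
      have e0 : chain 0 m = m := by
        unfold chain
        omega
      refine ⟨⟨hm, fun i hi p hp hd => ?_⟩, fun i hi => ?_⟩
      · cases i with
        | zero =>
          rw [e0] at hd
          exact Pool.Agent.TH977.PW.rpow_lt_dvd r m p hr hm hp hd
        | succ i =>
          exact h1 ⟨i, by omega⟩ p hp (by
            rw [cast_eq _ _ hm1, Int.natCast_dvd_natCast]
            exact hd)
      · cases i with
        | zero =>
          rw [e0, Nat.primeFactorsList_prime hm]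
          simp only [List.length_singleton]
          omega
        | succ i =>
          have h4 := h2 ⟨i, by omega⟩
          simp only [cast_eq _ _ hm1, Int.natAbs_natCast] at h4
          exact h4) θ hθ hθ1
  have key : ∀ r : ℕ, r0 ≤ r → ∀ l : ℕ, 2 ≤ l → ∀ ε : ℝ, 0 < ε → ∃ B : ℕ, ∀ᶠ X : ℕ in atTop, ∀ Y : ℕ,
      (X : ℝ) ^ θ ≤ Y → Y ≤ X → ∀ A : Set ℕ, (∀ n ∈ A, ChainRough k r n) →
        NearlyAll A l (Real.log X ^ B) X (X + Y) (ε * (Y / Real.log X ^ k)) := by
    intro r hr l hl ε hε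
    obtain ⟨B, hB⟩ := (h0 r hr).2 l hl ε hε
    refine ⟨B, ?_⟩
    filter_upwards [hB] with X hX Y hXY hYX A hA
    have h1 := hX Y hXY hYX A (fun p hp => hA p hp)
    unfold NearlyAll
    rw [out_eq]
    calc _ ≤ ε * Y / Real.log X ^ k := h1
      _ = _ := by ring
  refine ⟨?_, r0, fun r hr => ⟨key r hr, ?_⟩⟩
  · intro l hl ε hε
    obtain ⟨B, hB⟩ := key r0 le_rfl l hl ε hε
    refine ⟨B, ?_⟩
    filter_upwards [hB] with X hX Y hXY hYX A hA
    exact hX Y hXY hYX A (fun n hn => prime_rough k r0 hr0 n (hA n hn).2 (hA n hn).1)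
  · obtain ⟨κ, hκ, h2⟩ := (h0 r hr).1
    refine ⟨κ, hκ, ?_⟩
    filter_upwards [h2] with X hX
    rw [N_eq]
    calc κ * (X / Real.log X ^ k) = κ * X / Real.log X ^ k := by ring
      _ ≤ _ := hX

end Pool.Agent.Results.MP_39b545_nt.NarrowProgressions
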